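import Pool.Agent.H88.FSW.Fsw
import Pool.Agent.H57.SWB.Aes
import Pool.Agent.H57.AVG.Cgp

/-!
# The places 1 and 2 of the swapped list are full behind their own paths at almost every window

`aeSw_ful`: `FulQ` at almost every window gives `FulQ` for the swapped list.
-/

set_option autoImplicit false

namespace Pool.FSW88

open Finset Real MvPolynomial MeasureTheory Filter Topology
open Pool.Agent.H49.Ent Pool.Agent.H32.Dense Pool.STK Pool.KA Pool.KSAT Pool.K2S Pool.PB Pool.S6C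
open Pool.GEN Pool.CHT Pool.CHX Pool.ISO Pool.RCD Pool.LA91 Pool.AVG96 Pool.AVG50 Pool.CDX
open Pool.PKG Pool.OWN68 Pool.OWN83 Pool.D2F2 Pool.AVG57 Pool.FUL95
open Pool.TOP (TopS)
open Pool.SWP (sw sw_k sw_k1 sw_lt sw_sw asmC_sw AeSw SwA)

/-- **The places `1`, `2` of the swapped list are full behind their own paths.** -/
theorem aeSw_ful {n : ℕ} (hn4 : 4 ≤ n) {Φ Φ' : (ℕ → ℝ) → Prop}
    (hΦ : ∀ Sl, Φ' Sl → Φ fun l => Sl (sw 1 l)) (hful : AePG n (FulQ Φ : PropG n Unit)) :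
    AeSw n 1 (FulQ Φ' : PropG n Unit) := by
  intro hn S P r P' Λ PB PQ H hTop hF o G hG hGs _ hsw
  obtain ⟨S₁, a1, a2, a3⟩ := hful hn S P r P' Λ PB PQ H hTop hF o G hG hGs
  have H₁ := H.sub a1 a2
  obtain ⟨S₂, b1, b2, b3⟩ := asmC_all H₁.toPkT hTop hF hG hGs (v := 2) (by norm_num) (by omega)
  have H₂ := H₁.sub b1 b2
  have b2' : ∀ (τ : ℝ) (J : ℕ) (F : Fam n J) (A : F.Ω → Prop), S₂.St τ J F A → S.St τ J F A :=
    fun τ J F A h => a2 τ J F A (b2 τ J F A h)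
  obtain ⟨S₃, c1, c2, c3⟩ := asmC_sw H₂.toPkT hTop hF hG hGs le_rfl (by omega)
    (fun w hw => (hsw w hw).sub b2') (v := 2) (by norm_num) (by omega)
  refine ⟨S₃, c1, fun τ J F A h => b2' τ J F A (c2 τ J F A h), ?_⟩
  filter_upwards [a3] with g h3 hg κ hκ p
  refine ⟨0, fun Sl hd hS h1 => ?_⟩
  obtain ⟨_, h4⟩ := h3 hg κ hκ p
  have hsm : ∀ l, 1 ≤ l → l ≤ 3 → 1 ≤ sw 1 l ∧ sw 1 l ≤ 3 := by
    intro l l0 l1
    unfold sw
    split_ifs <;> omega
  have h5 := h4 (fun l => Sl (sw 1 l)) (fun l l0 l1 => by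
    have := hd (sw 1 l) (hsm l l0 l1).1 (hsm l l0 l1).2
    simp only [sw_sw] at this
    exact this) (hΦ _ hS) (fun l l0 l1 => h1 _ (hsm l l0 l1).1 (hsm l l0 l1).2)
  have h6 : FulG S₃ (cc hn o.1.1) (fun w l => LvL hn P P' o l w w) G g :=
    h5.sub fun τ J F A h => b2 τ J F A (c2 τ J F A h)
  have g0 : 0 < g := (hGs hg).1.1.1
  have g1 : g < 1 := (hGs hg).1.1.2.1
  obtain ⟨γ₁, y₁, k1⟩ := ((b3 0 ((1 + g) / 2) ((1 - g) / 2) le_rfl (by linarith) (by linarith)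
    (by linarith) (by linarith)).sub c1 c2).gch
  obtain ⟨γ₂, y₂, k2⟩ := (c3 0 ((1 + g) / 2) ((1 - g) / 2) le_rfl (by linarith) (by linarith)
    (by linarith) (by linarith)).gch
  exact fulG_sw k1 k2 g0 (by linarith) g0 (by linarith) h6

/-- **The full heights of the swapped list**, different slopes of the places `1`, `2`. -/
theorem aeSw_ful_ne {n : ℕ} (hn4 : 4 ≤ n)
    (hful : AePG n (FulQ (fun Sl => Sl 1 ≠ Sl 2) : PropG n Unit)) :
    AeSw n 1 (FulQ (fun Sl => Sl 1 ≠ Sl 2) : PropG n Unit) := by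
  refine aeSw_ful hn4 (fun Sl h => ?_) hful
  show Sl (sw 1 1) ≠ Sl (sw 1 2)
  rw [sw_k, sw_k1]
  exact fun h' => h h'.symm

end Pool.FSW88
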