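import Pool.Agent.H88.FSW.Trf
import Pool.Agent.H95.VF.Lit
import Pool.Agent.H3.SWP.Swg

/-!
# The places 1 and 2 are full behind their own paths: the swapped list

`fulP_two`: `FulP` for a list gives `FulP` for the list with the places `1`, `2` swapped, at a window
where both lists have natural labels. `fulG_two`, `fulG_sw`: the same for `FulG`.
-/

set_option autoImplicit false

namespace Pool.FSW88

open Finset Real MvPolynomial
open Pool.Agent.H49.Ent Pool.Agent.H32.Dense Pool.STK Pool.KA Pool.KSAT Pool.K2S Pool.PB Pool.S6C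
open Pool.GEN Pool.RCD Pool.LA91 Pool.AVG96 Pool.OWN83 Pool.FUL95
open Pool.SWP (sw sw_k sw_k1 sw_lt)

variable {m : ℕ} {α γ γ' : ∀ J : ℕ, Fam m J → Type}
  {f : ∀ (J : ℕ) (F : Fam m J), F.Ω → α J F} {y : ∀ (J : ℕ) (F : Fam m J), F.Ω → γ J F}
  {S : PCl m} {c c' : ℕ → Fin m} {s s' A A' B B' Λ Λ' : ℝ} {sn sn' : ℝ → ℕ → ℝ} {G : Set ℝ}

/-- **Few bits for a jet of the place `1`.** -/
theorem gjet1 (h : GCh S f y c 1 3 s A B Λ sn G) {b : ℝ} (hb : b ∈ G) (hA : A ≤ b) (hB : b < B)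
    {j : ℕ} {p p' N₁ N₂ Y δ : ℝ} (hδ : 0 < δ) (hΛ : Y + 2 * δ ≤ Λ) (q : sn b 1 - δ ≤ p)
    (q' : sn b 1 - δ ≤ p') (hN : N₂ ≤ N₁) (hN2 : N₂ + (j : ℝ) * b ≤ sn b 1 + Y) :
    Few S f (vg b) y (qJet m ((range 1).image c) (c 1) j b p N₁)
      (qJet m ((range 1).image c) (c 1) j b p' N₂) := by
  have hm : sn b 1 - δ ≤ min p p' := le_min q q'
  exact few_emp h.pos (h.gjet (i := 1) (j := j) le_rfl (by norm_num) (x₀ := b) hb hA hB le_rfl le_rfl
    le_rfl (p₀ := sn b) (N := fun _ _ => 0) (lv := fun _ => 1) (σ₀ := δ)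
    (fun l a b' => by omega) hδ (fun _ _ _ => one_pos) (fun l a b' => by omega)
    (fun l a b' => by omega) (fun l a b' => by omega) hN (by linarith) (fun l a b' => by omega))

/-- **Few bits for a jet of the place `2`**, the place `1` known. -/
theorem gjet2 (h : GCh S f y c 1 3 s A B Λ sn G) {b : ℝ} (hb : b ∈ G) (hA : A ≤ b) (hB : b < B)
    {j : ℕ} {N : ℕ → ℕ → ℝ} {p₁ : ℕ → ℝ} {p p' N₁ N₂ Y δ : ℝ} (hδ : 0 < δ) (hY : 0 ≤ Y)
    (hΛ : Y + 4 * δ ≤ Λ) (q1 : p₁ 1 = sn b 1) (q2 : sn b 2 - δ ≤ p) (q2' : sn b 2 - δ ≤ p')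
    (hN1 : ∀ j' ≤ j, sn b 1 + Y + 3 * δ ≤ N 1 j' + (j' : ℕ) * b) (hN : N₂ ≤ N₁)
    (hN2 : N₂ + (j : ℝ) * b ≤ sn b 2 + Y) :
    Few S f (vg b) y ((qJets m c 1 2 j (fun _ _ => b) (fun l _ => p₁ l) N).prod
      (qJet m ((range 2).image c) (c 2) j b p N₁))
      (qJet m ((range 2).image c) (c 2) j b p' N₂) := by
  have hm : sn b 2 - δ ≤ min p p' := le_min q2 q2'
  refine h.gjet (i := 2) (j := j) (by norm_num) (by norm_num) hb hA hB le_rfl le_rfl
    le_rfl (p₀ := p₁) (lv := fun _ => Y + 2 * δ) (σ₀ := δ) (fun l a b' => ?_) hδ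
    (fun _ _ _ => by linarith) (fun l a b' j' hj' => ?_) (fun l a b' => ?_)
    (fun l a b' l' a' b'' => by omega) hN (by linarith) (fun l a b' => by linarith)
  · obtain rfl : l = 1 := by omega
    exact q1.le
  · obtain rfl : l = 1 := by omega
    linarith [hN1 j' hj']
  · obtain rfl : l = 1 := by omega
    rw [q1]
    linarith

section

variable {b : ℝ}

theorem img1_sub : (range 1).image c ⊆ (range 2).image c :=
  image_subset_image (range_subset_range.2 (by norm_num))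

theorem img1_eq (e0 : c' 0 = c 0) : (range 1).image c' = (range 1).image c := by
  simp [e0]

/-- **The full heights of two places**, for the list with the places `1`, `2` swapped. -/
theorem fulP_two (h : GCh S (fun J F => ptr F J) y c 1 3 s A B Λ sn G)
    (h' : GCh S (fun J F => ptr F J) y c' 1 3 s' A' B' Λ' sn' G) (e0 : c' 0 = c 0)
    (e1 : c' 1 = c 2) (e2 : c' 2 = c 1) (n1 : sn' b 1 = sn b 2) (n2 : sn' b 2 = sn b 1)
    (hb : b ∈ G) (hA : A ≤ b) (hB : b < B) (hA' : A' ≤ b) (hB' : b < B') {K : ℕ}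
    {P M N₁ N₂ δ η : ℝ} {p : ℕ → ℝ} (hδ : 0 < δ) (hP : 0 ≤ P) (hPM : P ≤ M)
    (hP2 : P ≤ N₂) (hN1 : N₁ ≤ M) (hN2 : N₂ ≤ M) (hΛ : M + 10 * δ ≤ Λ)
    (hΛ' : M + 10 * δ ≤ Λ') (hp1 : sn' b 1 - δ ≤ p 1) (hp2 : sn' b 2 - δ ≤ p 2)
    (hF : FulP S y c K b (sn b) (sn b) (P + 6 * δ) M M η) :
    FulP S y c' K b p (sn' b) P N₁ N₂ (η + 24 * δ * Real.log 2) := by
  have hpos := h.pos
  have hI := img1_eq (c := c) (c' := c') e0
  have i1 : (range 1).image c' ⊆ (range 2).image c := by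
    rw [hI]
    exact img1_sub
  have i2 : (range 1).image c ⊆ (range 2).image c' := by
    rw [← hI]
    exact img1_sub
  obtain ⟨Q₀, hQ₀⟩ : ∃ Q₀, Q₀ = qJets m c 1 3 K (fun _ _ => b) (fun l _ => sn b l)
      (fun l j' => sn b l - (j' : ℝ) * b + (P + 6 * δ)) := ⟨_, rfl⟩
  -- the jets of the place `1`
  have stA : ∀ j ≤ K, ∀ Y p' : ℝ, 0 ≤ Y → Y ≤ P + 3 * δ → sn b 2 - δ ≤ p' →
      Few S (fun J F => ptr F J) (vg b) y Q₀ (qJet m ((range 1).image c') (c' 1) j b p'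
        (sn b 2 - (j : ℝ) * b + Y)) := by
    intro j hj Y p' hY hYP hp'
    have key := gjet2 h hb hA hB (j := j)
      (N := fun l j' => sn b l - (j' : ℝ) * b + (P + 6 * δ)) (p₁ := sn b) (p := sn b 2) (p' := p')
      (N₁ := sn b 2 - (j : ℝ) * b + (P + 6 * δ)) (N₂ := sn b 2 - (j : ℝ) * b + Y) (Y := Y) hδ hY
      (by linarith) rfl (by linarith) hp' (fun j' _ => by linarith) (by linarith) (by linarith)
    refine few_rsub (few_lmap hpos (Qb := Q₀) (fun u =>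
      (fun l j' => if 1 ≤ l ∧ l < 2 ∧ j' ≤ j then u l j' else 0, u 2 j)) ?_ key) ?_
    · intro K' e J F A u hu
      rw [hQ₀] at hu
      exact ⟨qJets_take (by norm_num) hj hu, hu.1 2 (by norm_num) (by norm_num) j hj⟩
    · intro K' e J F A u hu
      rw [e1] at hu
      exact qJet_up i1 le_rfl hu
  obtain ⟨QA, hQA⟩ : ∃ QA, QA = qJets m c' 1 2 K (fun _ _ => b) (fun l _ => sn' b l)
      (fun l j' => sn' b l - (j' : ℝ) * b + (P + 3 * δ)) := ⟨_, rfl⟩
  have fA : Few S (fun J F => ptr F J) (vg b) y Q₀ QA := by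
    rw [hQA]
    refine few_qjets hpos fun i a b' j' hj' => ?_
    obtain rfl : i = 1 := by omega
    rw [n1]
    exact stA j' hj' _ _ (by linarith) le_rfl (by linarith)
  have xA : Exs S QA := by
    rw [hQA]
    exact h'.exsjs hb hA' hB' (by norm_num) K _
  -- the jets of the place `2`
  have stB : ∀ j ≤ K, Few S (fun J F => ptr F J) (vg b) y Q₀
      (qJet m ((range 2).image c') (c' 2) j b (p 2) (sn b 1 - (j : ℝ) * b + P)) := by
    intro j hj
    have key := gjet2 h' hb hA' hB' (j := j)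
      (N := fun l j' => sn' b l - (j' : ℝ) * b + (P + 3 * δ)) (p₁ := sn' b) (p := sn b 1)
      (p' := p 2) (N₁ := sn b 1 - (j : ℝ) * b + (P + 6 * δ)) (N₂ := sn b 1 - (j : ℝ) * b + P)
      (Y := P) hδ hP (by linarith) rfl (by linarith) hp2 (fun j' _ => by linarith)
      (by linarith) (by linarith)
    refine few_cut hpos xA fA (few_lmap hpos (Qb := Q₀.prod QA) (fun u =>
      (fun l j' => if 1 ≤ l ∧ l < 2 ∧ j' ≤ j then u.2 l j' else 0, u.1 1 j)) ?_ key)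
    intro K' e J F A u hu
    obtain ⟨hu1, hu2⟩ := hu
    rw [hQA] at hu2
    rw [hQ₀] at hu1
    refine ⟨qJets_take le_rfl hj hu2, ?_⟩
    have h1 := hu1.1 1 le_rfl (by norm_num) j hj
    rw [e2]
    exact qJet_up i2 le_rfl h1
  have h0 : Few S (fun J F => ptr F J) (vg b) y Q₀ (qJets m c' 1 3 K (fun _ _ => b)
      (fun l _ => p l) (fun l j' => sn' b l - (j' : ℝ) * b + P)) := by
    refine few_qjets hpos fun i a b' j' hj' => ?_
    rcases (show i = 1 ∨ i = 2 by omega) with rfl | rfl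
    · rw [n1]
      exact stA j' hj' _ _ hP (by linarith) (by linarith)
    · rw [n2]
      exact stB j' hj'
  -- the heights
  obtain ⟨M', hM'⟩ : ∃ M', M' = M + 6 * δ := ⟨_, rfl⟩
  obtain ⟨Qa, hQa⟩ : ∃ Qa, Qa = qJet m ((range 1).image c') (c' 1) 0 b (sn' b 1)
      (sn' b 1 + M') := ⟨_, rfl⟩
  obtain ⟨Qb, hQb⟩ : ∃ Qb, Qb = qJet m ((range 2).image c') (c' 2) 0 b (sn' b 2)
      (sn' b 2 + M') := ⟨_, rfl⟩
  have xa : Exs S Qa := by
    rw [hQa]
    exact h'.exsj hb hA' hB' le_rfl (by norm_num) 0 _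
  have xb : Exs S Qb := by
    rw [hQb]
    exact h'.exsj hb hA' hB' (by norm_num) (by norm_num) 0 _
  have fu : ∀ X ≤ M + 3 * δ, Few S (fun J F => ptr F J) (vg b) y (Qa.prod Qb)
      (qJet m ((range 1).image c) (c 1) 0 b (sn b 1) (sn b 1 + X)) := by
    intro X hX
    have key := gjet2 h' hb hA' hB' (j := 0) (N := fun l _ => sn' b l + M') (p₁ := sn' b)
      (p := sn' b 2) (p' := sn' b 2) (N₁ := sn' b 2 + M') (N₂ := sn b 1 + X)
      (Y := M + 3 * δ) hδ (by linarith) (by linarith) rfl (by linarith) (by linarith)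
      (fun j' hj' => by
        obtain rfl : j' = 0 := by omega
        push_cast
        linarith) (by linarith) (by push_cast; linarith)
    refine few_rsub (few_lmap hpos (Qb := Qa.prod Qb) (fun u =>
      (fun l j' => if l = 1 ∧ j' = 0 then u.1 else 0, u.2)) ?_ key) ?_
    · intro K' e J F A u hu
      rw [hQa, hQb] at hu
      exact ⟨qJets_one hu.1, hu.2⟩
    · intro K' e J F A u hu
      rw [e2]
      exact qJet_up i2 n2.le hu
  have xu : Exs S (qJet m ((range 1).image c) (c 1) 0 b (sn b 1) (sn b 1 + (M + 3 * δ))) :=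
    h.exsj hb hA hB le_rfl (by norm_num) 0 _
  have fv : Few S (fun J F => ptr F J) (vg b) y (Qa.prod Qb)
      (qJet m ((range 2).image c) (c 2) 0 b (sn b 2) (sn b 2 + M)) := by
    have key := gjet2 h hb hA hB (j := 0) (N := fun l _ => sn b l + (M + 3 * δ)) (p₁ := sn b)
      (p := sn b 2) (p' := sn b 2) (N₁ := sn' b 1 + M') (N₂ := sn b 2 + M) (Y := M) hδ
      (by linarith) (by linarith) rfl (by linarith) (by linarith)
      (fun j' hj' => by
        obtain rfl : j' = 0 := by omega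
        push_cast
        linarith) (by linarith) (by push_cast; linarith)
    refine few_cut hpos xu (fu _ le_rfl) (few_lmap hpos (Qb := (Qa.prod Qb).prod _) (fun u =>
      (fun l j' => if l = 1 ∧ j' = 0 then u.2 else 0, u.1.1)) ?_ key)
    intro K' e J F A u hu
    rw [hQa, e1] at hu
    exact ⟨qJets_one hu.2, qJet_up i1 n1.ge hu.1.1⟩
  have L1 := lowN_trf hpos hF (by rw [← hQ₀]; exact h0) (few_d (few_lmap hpos Prod.snd
    (fun K' e J F A u hu => hu.2) (Few.pair hpos (fu M (by linarith)) fv)))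
    (h.exsjs hb hA hB (by norm_num) K _)
    ((h.exsj hb hA hB le_rfl (by norm_num) 0 _).prod
      (h.exsj hb hA hB (by norm_num) (by norm_num) 0 _))
  -- fewer digits
  obtain ⟨Q', hQ'⟩ : ∃ Q', Q' = (qJet m ((range 1).image c') (c' 1) 0 b (p 1) (sn' b 1 + N₁)).prod
      (qJet m ((range 2).image c') (c' 2) 0 b (p 2) (sn' b 2 + N₂)) := ⟨_, rfl⟩
  have d1 : FewD S (fun J F => ptr F J) (vg b) y Q' Qa ((M' - N₁) * Real.log 2) := by
    have k1 := gjet1 h' hb hA' hB' (j := 0) (p := p 1) (p' := sn' b 1) (N₁ := sn' b 1 + N₁)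
      (N₂ := sn' b 1 + N₁) (Y := N₁) hδ (by linarith) hp1 (by linarith) le_rfl
      (by push_cast; linarith)
    rw [hQ', hQa]
    refine (more_digits hpos (show sn' b 1 + N₁ ≤ sn' b 1 + M' by linarith)
      (Few.fst hpos k1)).le (le_of_eq ?_)
    ring
  have d2 : FewD S (fun J F => ptr F J) (vg b) y (Q'.prod Qa) Qb ((M' - N₂) * Real.log 2) := by
    have k2 := gjet2 h' hb hA' hB' (j := 0) (N := fun l _ => sn' b l + M') (p₁ := sn' b)
      (p := p 2) (p' := sn' b 2) (N₁ := sn' b 2 + N₂) (N₂ := sn' b 2 + N₂)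
      (Y := N₂) hδ (by linarith) (by linarith) rfl hp2 (by linarith)
      (fun j' hj' => by
        obtain rfl : j' = 0 := by omega
        push_cast
        linarith) le_rfl (by push_cast; linarith)
    have k3 : Few S (fun J F => ptr F J) (vg b) y (Q'.prod Qa)
        (qJet m ((range 2).image c') (c' 2) 0 b (sn' b 2) (sn' b 2 + N₂)) := by
      refine few_lmap hpos (Qb := Q'.prod Qa) (fun u =>
        (fun l j' => if l = 1 ∧ j' = 0 then u.2 else 0, u.1.2)) ?_ k2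
      intro K' e J F A u hu
      rw [hQ', hQa] at hu
      exact ⟨qJets_one hu.2, hu.1.2⟩
    rw [hQb]
    refine (more_digits hpos (show sn' b 2 + N₂ ≤ sn' b 2 + M' by linarith) k3).le (le_of_eq ?_)
    ring
  have L2 := lowN_tgt hpos (Q' := Q') L1 (fewD_lmap hpos Prod.snd
    (fun K' e J F A u hu => hu.2) (fewD_seq hpos d1 d2)) (xa.prod xb)
  rw [hQ'] at L2
  refine L2.le (le_of_eq ?_)
  rw [hM']
  ring

end

/-! ### The classes -/

/-- The exact positions of the base, the time, the side information and few digits of the velocity. -/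
noncomputable def yp (I : Finset (Fin m)) (lam : ℝ) (J : ℕ) (F : Fam m J) (ω : F.Ω) :
    ((Fin m → ℤ) × (ℕ × F.ζ)) × (Fin m → ℤ) :=
  (yX I J F ω, dT I lam J F ω)

theorem ykv_yp (I : Finset (Fin m)) (lam : ℝ) : YkV I lam (yp (m := m) I lam) :=
  fun _ _ => ⟨fun v => v, fun _ => rfl⟩

theorem kn_yp (I : Finset (Fin m)) (lam : ℝ) : Kn I 1 lam (yp (m := m) I lam) := fun J F =>
  ⟨fun v => (v.1.2.1, v.1.1, v.2), fun ω => by
    have e1 : ⌊(1 : ℝ) * J⌋₊ = J := by rw [one_mul, Nat.floor_natCast]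
    rw [e1]
    rfl⟩

/-- Other side information. -/
theorem gch_y {r₀ r : ℕ} (h : GCh S f y c r₀ r s A B Λ sn G)
    {y' : ∀ (J : ℕ) (F : Fam m J), F.Ω → γ' J F} {Λ₁ lam : ℝ} (h0 : 0 < Λ₁) (h1 : Λ₁ ≤ Λ)
    (h2 : Λ₁ ≤ lam) (hk : Kn ((range r₀).image c) 1 lam y') :
    GCh S f y' c r₀ r s A B Λ₁ sn G where
  ne := h.ne
  pos := h.pos
  tm := h.tm
  rn := h.rn
  cl := h.cl
  ch := h.ch
  att := h.att
  pt := h.pt
  kn := by
    obtain ⟨p₀, lam', a1, a2, a3, a4⟩ := h.kn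
    exact ⟨1, lam, le_rfl, h2, by linarith, hk⟩
  mono := h.mono
  A0 := h.A0
  Λ0 := h0

/-- **The full heights near `g`**, for the list with the places `1`, `2` swapped. -/
theorem fulG_two {γ₁ γ₂ : ∀ J : ℕ, Fam m J → Type} {y₁ : ∀ (J : ℕ) (F : Fam m J), F.Ω → γ₁ J F}
    {y₂ : ∀ (J : ℕ) (F : Fam m J), F.Ω → γ₂ J F}
    (h : GCh S (fun J F => ptr F J) y₁ c 1 3 s A B Λ sn G)
    (h' : GCh S (fun J F => ptr F J) y₂ c' 1 3 s' A' B' Λ' sn' G) (e0 : c' 0 = c 0)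
    (e1 : c' 1 = c 2) (e2 : c' 2 = c 1) (n1 : ∀ b, sn' b 1 = sn b 2) (n2 : ∀ b, sn' b 2 = sn b 1)
    {g : ℝ} (hAg : A < g) (hgB : g < B) (hAg' : A' < g) (hgB' : g < B')
    (hF : FulG S c sn G g) : FulG S c' sn' G g := by
  intro K e C he hC
  obtain ⟨k, φ, hφ, hF⟩ := hF K (e / 4) (C + e) (by positivity) (by positivity)
  refine ⟨k, e / 64, by positivity, fun γ y hy => ?_⟩
  have hI := img1_eq (c := c) (c' := c') e0
  rw [hI] at hy
  obtain ⟨lam, hlam⟩ : ∃ lam : ℝ, lam = (1 / 8) ^ k := ⟨_, rfl⟩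
  have hlam0 : 0 < lam := by rw [hlam]; positivity
  rw [← hlam] at hy hF
  obtain ⟨ρ₁, hρ₁, hF⟩ := hF _ (yp ((range 1).image c) lam) (ykv_yp _ _)
  obtain ⟨Λ₁, hΛ₁⟩ : ∃ Λ₁ : ℝ, Λ₁ = min lam (min Λ Λ') := ⟨_, rfl⟩
  have hΛ0 := h.Λ0
  have hΛ0' := h'.Λ0
  have l0 : 0 < Λ₁ := by rw [hΛ₁]; positivity
  have l1 : Λ₁ ≤ lam := by rw [hΛ₁]; exact min_le_left _ _
  have l2 : Λ₁ ≤ Λ := by rw [hΛ₁]; exact (min_le_right _ _).trans (min_le_left _ _)
  have l3 : Λ₁ ≤ Λ' := by rw [hΛ₁]; exact (min_le_right _ _).trans (min_le_right _ _)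
  have H := gch_y h l0 l2 l1 (kn_yp _ _)
  have H' := gch_y h' l0 l3 l1 (kn_yp _ _)
  rw [hI] at H'
  obtain ⟨D, hD⟩ : ∃ D : ℝ, D = C + 2 * e := ⟨_, rfl⟩
  have hD0 : 0 < D := by rw [hD]; positivity
  refine ⟨min ρ₁ (min (Λ₁ / D) (min ((g - max A A') / D) ((min B B' - g) / D))), ?_,
    fun R hR hRρ b₀ a1 a2 => ?_⟩
  · have k1 : 0 < g - max A A' := sub_pos.2 (max_lt hAg hAg')
    have k2 : 0 < min B B' - g := sub_pos.2 (lt_min hgB hgB')
    positivity
  obtain ⟨r1, r2⟩ := lt_min_iff.1 hRρ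
  obtain ⟨r2, r3⟩ := lt_min_iff.1 r2
  obtain ⟨r3, r4⟩ := lt_min_iff.1 r3
  rw [lt_div_iff₀ hD0] at r2 r3 r4
  have hCe : R * D = C * R + 2 * (e * R) := by rw [hD]; ring
  have he0 : 0 < e * R := by positivity
  rw [hCe] at r2 r3 r4
  have t1 : A < b₀ - e * R := by linarith [le_max_left A A']
  have t2 : A' < b₀ - e * R := by linarith [le_max_right A A']
  have t3 : b₀ < B := by linarith [min_le_left B B']
  have t4 : b₀ < B' := by linarith [min_le_right B B']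
  obtain ⟨b, hb, b1, b2, hF⟩ := hF R hR r1 b₀ (by linarith) (by linarith)
  have b1' : b₀ - e * R ≤ b := by linarith
  refine ⟨b, hb, b1', b2, fun p P N₁ N₂ c1 c2 c3 c4 c5 c6 => ?_⟩
  obtain ⟨δ, hδ⟩ : ∃ δ : ℝ, δ = e / 64 * R := ⟨_, rfl⟩
  have hδ0 : 0 < δ := by rw [hδ]; positivity
  have hδe : e * R = 64 * δ := by rw [hδ]; ring
  obtain ⟨M, hM⟩ : ∃ M : ℝ, M = max N₁ N₂ + 6 * δ := ⟨_, rfl⟩
  have m1 : N₁ + 6 * δ ≤ M := by rw [hM]; linarith [le_max_left N₁ N₂]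
  have m2 : N₂ + 6 * δ ≤ M := by rw [hM]; linarith [le_max_right N₁ N₂]
  have m3 : M ≤ C * R + 6 * δ := by rw [hM]; linarith [max_le c4 c5]
  have hl2 : Real.log 2 < 0.6931471808 := Real.log_two_lt_d9
  have F1 := hF (sn b) (P + 6 * δ) M M (by linarith) (by linarith) (by linarith)
    (by linarith) (by linarith) (fun l _ _ => by
      have : 0 < φ * R := by positivity
      linarith)
  have F2 := fulP_two H H' e0 e1 e2 (n1 b) (n2 b) hb (by linarith) (by linarith)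
    (by linarith) (by linarith) hδ0 c1 (M := M) (N₁ := N₁) (N₂ := N₂) (p := p) (by linarith) c3
    (by linarith) (by linarith) (by linarith) (by linarith)
    (by rw [hδ]; exact c6 1 le_rfl (by norm_num)) (by rw [hδ]; exact c6 2 (by norm_num) le_rfl) F1
  have hy' : ∀ (J : ℕ) (F : Fam m J), ∃ φ : ((Fin m → ℤ) × (ℕ × F.ζ)) × (Fin m → ℤ) → γ J F,
      ∀ ω, y J F ω = φ (yp ((range 1).image c) lam J F ω) := hy
  refine (lowN_y h.pos hy' F2).le ?_
  have q1 : 24 * δ * Real.log 2 ≤ 24 * δ * 0.6931471808 :=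
    mul_le_mul_of_nonneg_left hl2.le (by positivity)
  linarith

/-- **The full heights near `g`** for the swapped list of `gch_sw`. -/
theorem fulG_sw {γ₁ γ₂ : ∀ J : ℕ, Fam m J → Type} {y₁ : ∀ (J : ℕ) (F : Fam m J), F.Ω → γ₁ J F}
    {y₂ : ∀ (J : ℕ) (F : Fam m J), F.Ω → γ₂ J F}
    (h : GCh S (fun J F => ptr F J) y₁ c 1 3 s A B Λ sn G)
    (h' : GCh S (fun J F => ptr F J) y₂ (fun l => c (sw 1 l)) 1 3 s' A' B' Λ'
      (fun w l => sn w (sw 1 l)) G) {g : ℝ} (hAg : A < g) (hgB : g < B) (hAg' : A' < g)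
    (hgB' : g < B') (hF : FulG S c sn G g) :
    FulG S (fun l => c (sw 1 l)) (fun w l => sn w (sw 1 l)) G g := by
  refine fulG_two h h' ?_ ?_ ?_ (fun b => ?_) (fun b => ?_) hAg hgB hAg' hgB' hF
  · show c (sw 1 0) = c 0
    rw [sw_lt (by norm_num)]
  · show c (sw 1 1) = c 2
    rw [sw_k]
  · show c (sw 1 2) = c 1
    rw [sw_k1]
  · show sn b (sw 1 1) = sn b 2
    rw [sw_k]
  · show sn b (sw 1 2) = sn b 1
    rw [sw_k1]

end Pool.FSW88
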