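import Pool.Agent.H71.FUL.Fub

/-!
# Transfer of lower bounds

`lowN_trf`: a lower bound for other quantities, few bits of each other. `lowN_y`: less side
information. `FewD.seq`: few bits up to `δ J`, one after the other.
-/

set_option autoImplicit false

namespace Pool.FSW88

open Finset Real MvPolynomial
open Pool.Agent.H49.Ent Pool.Agent.H32.Dense Pool.STK Pool.KA Pool.KSAT Pool.K2S Pool.PB Pool.S6C
open Pool.GEN Pool.RCD Pool.LA91 Pool.AVG96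
open Pool.GRD (LbP)

variable {m : ℕ} {U U' U₀ U₀' U₁ U₂ V : Type} {α β γ γ' : ∀ J : ℕ, Fam m J → Type}
  {f : ∀ (J : ℕ) (F : Fam m J), F.Ω → α J F} {g : ∀ (J : ℕ) (F : Fam m J), F.Ω → β J F}
  {y : ∀ (J : ℕ) (F : Fam m J), F.Ω → γ J F} {y' : ∀ (J : ℕ) (F : Fam m J), F.Ω → γ' J F}
  {S : PCl m}

/-- A quantity with more conditions. -/
theorem few_rsub {Q : Qt m U} {Qa Qb : Qt m U'} (h : Few S f g y Q Qa)
    (hφ : ∀ (K : ℕ) (e : ℝ) (J : ℕ) (F : Fam m J) (A : F.Ω → Prop) (u : F.Ω → U'),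
      Qb.P K e J F A u → Qa.P K e J F A u) : Few S f g y Q Qb := by
  intro x hx
  obtain ⟨e, he, H⟩ := h x hx
  exact ⟨e, he, fun K => Bas.mono 0 (H K) fun J _ F A H u u' hu hu' =>
    H u u' hu (hφ _ _ _ _ _ _ hu')⟩

/-- More conditions on the known quantity. -/
theorem fewD_lmap
    (hpos : ∀ (τ : ℝ) (J : ℕ) (F : Fam m J) (A : F.Ω → Prop), S.St τ J F A → 0 < Pe F.p A)
    {Qa : Qt m U} {Qb : Qt m U'} {Q' : Qt m V} {δ : ℝ} (φ : U' → U)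
    (hφ : ∀ (K : ℕ) (e : ℝ) (J : ℕ) (F : Fam m J) (A : F.Ω → Prop) (u : F.Ω → U'),
      Qb.P K e J F A u → Qa.P K e J F A (fun ω => φ (u ω))) (h : FewD S f g y Qa Q' δ) :
    FewD S f g y Qb Q' δ := by
  intro x hx
  obtain ⟨e, he, H⟩ := h x hx
  refine ⟨e, he, fun K => Bas.mono 0 ((H K).and (pos_bas hpos)) ?_⟩
  rintro J - F A ⟨H, hA⟩ u u' hu hu'
  obtain ⟨V, z, hz, h1⟩ := H _ u' (hφ _ _ _ _ _ _ hu) hu'
  refine ⟨V, z, hz, le_trans (CH_mono_cond (isLaw_cond F.isLaw hA).nonneg ?_) h1⟩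
  intro ω ω' _ _ hh
  exact Prod.ext (congrArg φ (Prod.ext_iff.mp hh).1) (Prod.ext_iff.mp hh).2

/-- **Few bits up to `δ J`, one after the other.** -/
theorem fewD_seq
    (hpos : ∀ (τ : ℝ) (J : ℕ) (F : Fam m J) (A : F.Ω → Prop), S.St τ J F A → 0 < Pe F.p A)
    {Q : Qt m U} {Q₁ : Qt m U₁} {Q₂ : Qt m U₂} {δ₁ δ₂ : ℝ} (h₁ : FewD S f g y Q Q₁ δ₁)
    (h₂ : FewD S f g y (Q.prod Q₁) Q₂ δ₂) : FewD S f g y Q (Q₁.prod Q₂) (δ₁ + δ₂) := by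
  intro c hc
  obtain ⟨e₁, he₁, H₁⟩ := h₁ (c / 2) (half_pos hc)
  obtain ⟨e₂, he₂, H₂⟩ := h₂ (c / 2) (half_pos hc)
  refine ⟨min e₁ e₂, lt_min he₁ he₂, fun K => Bas.mono 0 (((H₁ K).and (H₂ K)).and
    (pos_bas hpos)) ?_⟩
  rintro J - F A ⟨⟨H₁, H₂⟩, hA⟩ u u' hu hu'
  have hcl := isLaw_cond F.isLaw hA
  have l1 : min e₁ e₂ ≤ e₁ := min_le_left _ _
  have l2 : min e₁ e₂ ≤ e₂ := min_le_right _ _
  obtain ⟨V, z, hz, a1⟩ := H₁ u (fun ω => (u' ω).1) (Q.mono le_rfl l1 hu)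
    (Q₁.mono le_rfl l1 hu'.1)
  obtain ⟨V', z', hz', a2⟩ := H₂ (fun ω => (u ω, (u' ω).1)) (fun ω => (u' ω).2)
    ⟨Q.mono le_rfl l2 hu, Q₁.mono le_rfl l2 hu'.1⟩ (Q₂.mono le_rfl l2 hu'.2)
  refine ⟨_, _, hz.join hz', ?_⟩
  have s1 := CH_chain hcl.nonneg (fun ω => (u' ω).2) (fun ω => (u' ω).1)
    (fun ω => (u ω, ((z ω, z' ω), y J F ω)))
  have s2 : CH (Pool.Agent.H49.Ent.cond F.p A True) (fun ω => (u' ω).1)
      (fun ω => (u ω, ((z ω, z' ω), y J F ω))) ≤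
      CH (Pool.Agent.H49.Ent.cond F.p A True) (fun ω => (u' ω).1)
        (fun ω => (u ω, (z ω, y J F ω))) := by
    refine CH_mono_cond hcl.nonneg fun ω ω' _ _ hh => ?_
    simp only [Prod.mk.injEq] at hh ⊢
    exact ⟨hh.1, hh.2.1.1, hh.2.2⟩
  have s3 : CH (Pool.Agent.H49.Ent.cond F.p A True) (fun ω => (u' ω).2)
      (fun ω => ((u' ω).1, (u ω, ((z ω, z' ω), y J F ω)))) ≤
      CH (Pool.Agent.H49.Ent.cond F.p A True) (fun ω => (u' ω).2)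
        (fun ω => ((u ω, (u' ω).1), (z' ω, y J F ω))) := by
    refine CH_mono_cond hcl.nonneg fun ω ω' _ _ hh => ?_
    simp only [Prod.mk.injEq] at hh ⊢
    exact ⟨⟨hh.2.1, hh.1⟩, hh.2.2.1.2, hh.2.2.2⟩
  have s4 : CH (Pool.Agent.H49.Ent.cond F.p A True) u' (fun ω => (u ω, ((z ω, z' ω), y J F ω))) ≤
      CH (Pool.Agent.H49.Ent.cond F.p A True) (fun ω => ((u' ω).2, (u' ω).1))
        (fun ω => (u ω, ((z ω, z' ω), y J F ω))) := by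
    refine CH_mono_left hcl.nonneg fun ω ω' _ _ hh => ?_
    simp only [Prod.mk.injEq] at hh
    exact Prod.ext hh.1.2 hh.1.1
  change CH (Pool.Agent.H49.Ent.cond F.p A True) u' (fun ω => (u ω, ((z ω, z' ω), y J F ω))) ≤
    (δ₁ + δ₂ + c) * J
  linarith

/-- **Transfer of a lower bound**: the new condition is few bits given the old one, and the old
quantity is few bits, up to `δ J`, given both conditions and the new quantity. -/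
theorem lowN_trf
    (hpos : ∀ (τ : ℝ) (J : ℕ) (F : Fam m J) (A : F.Ω → Prop), S.St τ J F A → 0 < Pe F.p A)
    {Q₀ : Qt m U₀} {Q : Qt m U} {Q₀' : Qt m U₀'} {Q' : Qt m U'} {θ δ : ℝ}
    (hL : LowN S f g y Q₀ Q θ) (h0 : Few S f g y Q₀ Q₀')
    (h1 : FewD S f g y ((Q₀.prod Q₀').prod Q') Q δ) (x0 : Exs S Q₀) (x1 : Exs S Q) :
    LowN S f g y Q₀' Q' (θ - δ) := by
  intro x hx
  obtain ⟨h, hh⟩ : ∃ h : ℝ, h = x / 4 := ⟨_, rfl⟩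
  have hh0 : 0 < h := by rw [hh]; positivity
  obtain ⟨k1, hk1, e1, he1, H1⟩ := hL h hh0
  obtain ⟨e2, he2, H2⟩ := h0.mx hpos h hh0
  obtain ⟨e3, he3, H3⟩ := h1.mx hpos h hh0
  obtain ⟨e₀, he₀, l1, l2, l3⟩ : ∃ e₀ : ℝ, 0 < e₀ ∧ e₀ ≤ e1 ∧ e₀ ≤ e2 ∧ e₀ ≤ e3 :=
    ⟨min e1 (min e2 e3), by positivity, min_le_left _ _,
      (min_le_right _ _).trans (min_le_left _ _), (min_le_right _ _).trans (min_le_right _ _)⟩
  obtain ⟨Ka, Ma, hxa⟩ := x0 e₀ he₀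
  obtain ⟨Kb, Mb, hxb⟩ := x1 e₀ he₀
  refine ⟨min k1 (h / 2), by positivity, e₀, he₀, fun K => ?_⟩
  obtain ⟨K', q0, q1, q2⟩ : ∃ K' : ℕ, K ≤ K' ∧ Ka ≤ K' ∧ Kb ≤ K' :=
    ⟨K + Ka + Kb, by omega, by omega, by omega⟩
  refine Bas.mono 0 ((((H1 K').and (H2 K')).and ((H3 K').and (pos_bas hpos))).and
    (hxa.and hxb)) ?_
  rintro J - F A ⟨⟨⟨H1, H2⟩, H3, hA⟩, ⟨ua, hua, -⟩, ub, hub, -⟩ Vz z hz u₀ u hu₀ hu
  have hp := (isLaw_cond F.isLaw hA).nonneg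
  have hz1 := hz.le' (min_le_left _ _)
  have hz2 := hz.le' (min_le_right _ _)
  have m1 := H1 Vz z hz1 ua ub (Q₀.mono q1 l1 hua) (Q.mono q2 l1 hub)
  have m2 := H2 Vz z hz2 ua u₀ (Q₀.mono q1 l2 hua) (Q₀'.mono q0 l2 hu₀)
  have m3 := H3 Vz z hz2 (fun ω => ((ua ω, u₀ ω), u ω)) ub
    ⟨⟨Q₀.mono q1 l3 hua, Q₀'.mono q0 l3 hu₀⟩, Q'.mono q0 l3 hu⟩ (Q.mono q2 l3 hub)
  -- the entropies
  have s1 := CH_le_add hp ub u₀ (fun ω => (z ω, (ua ω, y J F ω)))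
  have s2 : CH (Pool.Agent.H49.Ent.cond F.p A True) u₀ (fun ω => (z ω, (ua ω, y J F ω))) ≤
      CH (Pool.Agent.H49.Ent.cond F.p A True) u₀ (fun ω => (ua ω, (z ω, y J F ω))) :=
    CH_mono_cond hp fun ω ω' _ _ hh => by
      simp only [Prod.mk.injEq] at hh ⊢
      exact ⟨hh.2.1, hh.1, hh.2.2⟩
  have s3 := CH_le_add hp ub u (fun ω => (u₀ ω, (z ω, (ua ω, y J F ω))))
  have s4 : CH (Pool.Agent.H49.Ent.cond F.p A True) ub
      (fun ω => (u ω, (u₀ ω, (z ω, (ua ω, y J F ω))))) ≤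
      CH (Pool.Agent.H49.Ent.cond F.p A True) ub
        (fun ω => (((ua ω, u₀ ω), u ω), (z ω, y J F ω))) :=
    CH_mono_cond hp fun ω ω' _ _ hh => by
      simp only [Prod.mk.injEq] at hh ⊢
      exact ⟨⟨⟨hh.2.2.2.1, hh.2.1⟩, hh.1⟩, hh.2.2.1, hh.2.2.2.2⟩
  have s5 : CH (Pool.Agent.H49.Ent.cond F.p A True) u (fun ω => (u₀ ω, (z ω, (ua ω, y J F ω)))) ≤
      CH (Pool.Agent.H49.Ent.cond F.p A True) u (fun ω => (z ω, (u₀ ω, y J F ω))) :=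
    CH_mono_cond hp fun ω ω' _ _ hh => by
      simp only [Prod.mk.injEq] at hh ⊢
      exact ⟨hh.2.1, hh.1, hh.2.2.2⟩
  have s6 : (θ - δ - x) * J ≤ (θ - h) * J - h * J - (δ + h) * J := by
    have hJ0 : (0 : ℝ) ≤ J := Nat.cast_nonneg J
    rw [← sub_mul, ← sub_mul]
    refine mul_le_mul_of_nonneg_right ?_ hJ0
    rw [hh]
    linarith
  linarith

/-- **Another quantity** behind the same condition. -/
theorem lowN_tgt
    (hpos : ∀ (τ : ℝ) (J : ℕ) (F : Fam m J) (A : F.Ω → Prop), S.St τ J F A → 0 < Pe F.p A)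
    {Q₀ : Qt m U₀} {Q : Qt m U} {Q' : Qt m U'} {θ δ : ℝ}
    (hL : LowN S f g y Q₀ Q θ) (h1 : FewD S f g y (Q₀.prod Q') Q δ) (x1 : Exs S Q) :
    LowN S f g y Q₀ Q' (θ - δ) := by
  intro x hx
  obtain ⟨h, hh⟩ : ∃ h : ℝ, h = x / 4 := ⟨_, rfl⟩
  have hh0 : 0 < h := by rw [hh]; positivity
  obtain ⟨k1, hk1, e1, he1, H1⟩ := hL h hh0
  obtain ⟨e3, he3, H3⟩ := h1.mx hpos h hh0
  obtain ⟨e₀, he₀, l1, l3⟩ : ∃ e₀ : ℝ, 0 < e₀ ∧ e₀ ≤ e1 ∧ e₀ ≤ e3 :=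
    ⟨min e1 e3, by positivity, min_le_left _ _, min_le_right _ _⟩
  obtain ⟨Kb, Mb, hxb⟩ := x1 e₀ he₀
  refine ⟨min k1 (h / 2), by positivity, e₀, he₀, fun K => ?_⟩
  obtain ⟨K', q0, q2⟩ : ∃ K' : ℕ, K ≤ K' ∧ Kb ≤ K' := ⟨K + Kb, by omega, by omega⟩
  refine Bas.mono 0 (((H1 K').and ((H3 K').and (pos_bas hpos))).and hxb) ?_
  rintro J - F A ⟨⟨H1, H3, hA⟩, ub, hub, -⟩ Vz z hz u₀ u hu₀ hu
  have hp := (isLaw_cond F.isLaw hA).nonneg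
  have hz1 := hz.le' (min_le_left _ _)
  have hz2 := hz.le' (min_le_right _ _)
  have m1 := H1 Vz z hz1 u₀ ub (Q₀.mono q0 l1 hu₀) (Q.mono q2 l1 hub)
  have m3 := H3 Vz z hz2 (fun ω => (u₀ ω, u ω)) ub
    ⟨Q₀.mono q0 l3 hu₀, Q'.mono q0 l3 hu⟩ (Q.mono q2 l3 hub)
  have s3 := CH_le_add hp ub u (fun ω => (z ω, (u₀ ω, y J F ω)))
  have s4 : CH (Pool.Agent.H49.Ent.cond F.p A True) ub
      (fun ω => (u ω, (z ω, (u₀ ω, y J F ω)))) ≤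
      CH (Pool.Agent.H49.Ent.cond F.p A True) ub (fun ω => ((u₀ ω, u ω), (z ω, y J F ω))) :=
    CH_mono_cond hp fun ω ω' _ _ hh => by
      simp only [Prod.mk.injEq] at hh ⊢
      exact ⟨⟨hh.2.2.1, hh.1⟩, hh.2.1, hh.2.2.2⟩
  have s6 : (θ - δ - x) * J ≤ (θ - h) * J - (δ + h) * J := by
    have hJ0 : (0 : ℝ) ≤ J := Nat.cast_nonneg J
    rw [← sub_mul]
    refine mul_le_mul_of_nonneg_right ?_ hJ0
    rw [hh]
    linarith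
  linarith

/-- **Less side information.** -/
theorem lowN_y
    (hpos : ∀ (τ : ℝ) (J : ℕ) (F : Fam m J) (A : F.Ω → Prop), S.St τ J F A → 0 < Pe F.p A)
    (hy : ∀ (J : ℕ) (F : Fam m J), ∃ φ : γ' J F → γ J F, ∀ ω, y J F ω = φ (y' J F ω))
    {Q₀ : Qt m U₀} {Q : Qt m U} {θ : ℝ} (hL : LowN S f g y' Q₀ Q θ) : LowN S f g y Q₀ Q θ := by
  intro x hx
  obtain ⟨k, hk, e, he, H⟩ := hL x hx
  refine ⟨k, hk, e, he, fun K => Bas.mono 0 ((H K).and (pos_bas hpos)) ?_⟩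
  rintro J - F A ⟨H, hA⟩ Vz z hz u₀ u hu₀ hu
  obtain ⟨φ, hφ⟩ := hy J F
  refine (H Vz z hz u₀ u hu₀ hu).trans (CH_mono_cond (isLaw_cond F.isLaw hA).nonneg ?_)
  intro ω ω' _ _ hh
  simp only [Prod.mk.injEq] at hh ⊢
  exact ⟨hh.1, hh.2.1, by rw [hφ ω, hφ ω', hh.2.2]⟩

/-- Jets over more coordinates, of a lower precision. -/
theorem qJet_up {I I' : Finset (Fin m)} (hI : I ⊆ I') {k : Fin m} {j : ℕ} {w p p' N : ℝ}
    (hp : p' ≤ p) {K : ℕ} {e : ℝ} {J : ℕ} {F : Fam m J} {A : F.Ω → Prop} {u : F.Ω → ℤ}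
    (h : (qJet m I k j w p N).P K e J F A u) : (qJet m I' k j w p' N).P K e J F A u := by
  obtain ⟨hc, V, z, z', G, hl, hu⟩ := h
  exact ⟨hc, V, z, z', G, hl.mono hI le_rfl (Nat.floor_le_floor
    (mul_le_mul_of_nonneg_right (by linarith) (Nat.cast_nonneg J))), hu⟩

/-- One jet as a family. -/
theorem qJets_one {c : ℕ → Fin m} {w p N : ℕ → ℕ → ℝ} {K : ℕ} {e : ℝ} {J : ℕ} {F : Fam m J}
    {A : F.Ω → Prop} {u : F.Ω → ℤ}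
    (h : (qJet m ((range 1).image c) (c 1) 0 (w 1 0) (p 1 0) (N 1 0)).P K e J F A u) :
    (qJets m c 1 2 0 w p N).P K e J F A (fun ω l j' => if l = 1 ∧ j' = 0 then u ω else 0) := by
  refine ⟨fun i a b j' c' => ?_, fun ω _ i j' hin => if_neg fun hn => hin ?_⟩
  · obtain rfl : i = 1 := by omega
    obtain rfl : j' = 0 := by omega
    simp only [and_self, if_true]
    exact h
  · obtain ⟨rfl, rfl⟩ := hn
    exact ⟨le_rfl, by norm_num, le_rfl⟩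

end Pool.FSW88
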